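import Pool.Agent.Y206.Q.Stm2
import Pool.Agent.Y206.Q.Link2
import Pool.Agent.Y469.QG.Quad
import Pool.Agent.Y328.QG.Card
import Pool.Agent.Helper947.Geo.B10
import Pool.Agent.Helper947.Geo.G4
import Pool.Agent.Helper947.Geo.A2

/-!
Project QG (MP_9828eb_ag): ONE, type `(1, b)` with `b ≥ 3` is contained in a ruling line.
-/

set_option autoImplicit false
open MvPolynomial
open Pool.Agent.Helper947.Geo
open Pool.Agent.Y689.QG
open Pool.Agent.Y206.Q

namespace Pool.Agent.Y397.QG

/-- a linear form vanishing at three independent vectors is zero -/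
theorem lin_zero {F : MvPolynomial (Fin 3) ℂ} (hF : F.IsHomogeneous 1) {v : Fin 3 → Fin 3 → ℂ}
    (hv : LinearIndependent ℂ v) (h : ∀ i, eval (v i) F = 0) : F = 0 := by
  obtain ⟨L, hL⟩ := zz_eval_lin F hF
  have hs : Submodule.span ℂ (Set.range v) = ⊤ :=
    LinearIndependent.span_eq_top_of_card_eq_finrank' hv (by simp)
  have hL0 : L = 0 := by
    apply LinearMap.ext_on_range (v := v) hs
    intro i
    rw [hL, h i, LinearMap.zero_apply]
  apply MvPolynomial.funext
  intro x
  rw [← hL x, hL0, LinearMap.zero_apply, map_zero]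

/-- three points of a set of type `(1, b)` are collinear -/
theorem dep {K : Type} [Fintype K] (z : K → Fin 4 → ℂ) {b : ℕ} (hG : Gep z 1 b) (i j k : K) :
    ¬ LinearIndependent ℂ ![z i, z j, z k] := by
  intro hli
  obtain ⟨φ, hφ, hG⟩ := hG
  obtain ⟨ζ, hζ0, hζ⟩ := off_line_ker (le_refl 4) ![z i, z j, z k]
  obtain ⟨P, hP⟩ := g4_exists_ne (φ * (X (Fin.last 3) * lf ζ))
    (mul_ne_zero hφ (mul_ne_zero (X_ne_zero _) (pi_lf_ne hζ0)))
  rw [map_mul, map_mul, eval_X, eval_lf] at hP
  have hPφ := left_ne_zero_of_mul hP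
  have hPl : P (Fin.last 3) ≠ 0 := left_ne_zero_of_mul (right_ne_zero_of_mul hP)
  have hPz : ζ ⬝ᵥ P ≠ 0 := right_ne_zero_of_mul (right_ne_zero_of_mul hP)
  obtain ⟨F, G, hF, -, hI⟩ := hG P hPφ
  have hF0 : F ≠ 0 := by
    intro hF0
    have hu : IsUnit G := coprime_of_van _ F G hI (by rw [hF0]; exact dvd_zero _) (dvd_refl _)
    have h1 : (1 : MvPolynomial (Fin 3) ℂ) ∈ Ideal.span {F, G} := by
      rw [← Ideal.eq_top_iff_one]
      exact Ideal.eq_top_of_isUnit_mem _ (Ideal.subset_span (by simp)) hu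
    have h2 := (hI 1).1 h1 i 1
    rw [map_one] at h2
    exact one_ne_zero h2
  apply hF0
  have hind : LinearIndependent ℂ (fun a => projv P (![z i, z j, z k] a)) := by
    rw [Fintype.linearIndependent_iff]
    intro c hc a
    have h1 : projv P (∑ a, c a • ![z i, z j, z k] a) = 0 := by
      have h2 := map_sum (pi_L P) (fun a => c a • ![z i, z j, z k] a) Finset.univ
      simp only [map_smul] at h2
      exact h2.trans hc
    obtain ⟨d, hd⟩ := projv_ker P _ hPl h1
    have hd0 : d = 0 := by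
      have h3 := congrArg (fun v => v ⬝ᵥ ζ) hd
      simp only [sum_dotProduct, smul_dotProduct, hζ, smul_eq_mul, mul_zero,
        Finset.sum_const_zero] at h3
      rcases mul_eq_zero.1 h3.symm with h | h
      · exact h
      · exact absurd (by rw [dotProduct_comm]; exact h) hPz
    rw [hd0, zero_smul] at hd
    exact Fintype.linearIndependent_iff.1 hli c hd a
  refine lin_zero hF hind ?_
  have hv : ∀ k : K, eval (projv P (z k)) F = 0 := by
    intro k
    have := (hI F).1 (Ideal.subset_span (by simp)) k 1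
    rwa [one_smul] at this
  intro a
  fin_cases a
  · exact hv i
  · exact hv j
  · exact hv k

/-- the first half -/
theorem half {K : Type} (s : K → Fin 2 → ℂ) (hs : ∀ k, s k ≠ 0) {i j : K}
    (hij : dt (s i) (s j) = 0) (h : ∀ k, k ≠ i → k ≠ j → dt (s k) (s i) = 0) :
    ∀ k l, dt (s k) (s l) = 0 := by
  have h1 : ∀ k, dt (s k) (s i) = 0 := by
    intro k
    by_cases hki : k = i
    · rw [hki]; simp only [dt]; ring
    · by_cases hkj : k = j
      · rw [hkj]; exact dt_comm0 hij
      · exact h k hki hkj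
  exact fun k l => dt_trans (hs i) (h1 k) (dt_comm0 (h1 l))

theorem one : S_ONE := by
  classical
  intro e he K _ s t hP b hb hG
  have hz : ∀ k l, k ≠ l → LinearIndependent ℂ ![E e (s k) (t k), E e (s l) (t l)] :=
    fun k l hkl => pts_pair Pool.Agent.Y469.QG.pair he hP k l hkl
  have h0 : ∀ k, E e (s k) (t k) ≠ 0 := fun k => pts_ne he hP k
  have hcard : 3 ≤ Fintype.card K := by
    obtain ⟨φ, hφ, hG'⟩ := hG
    obtain ⟨ψ, hψ, hψP⟩ := projv_pair (fun k => E e (s k) (t k)) hz h0
    obtain ⟨P, hPP⟩ := g4_exists_ne (φ * ψ) (mul_ne_zero hφ hψ)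
    rw [map_mul] at hPP
    obtain ⟨F, G, hF, hGb, hI⟩ := hG' P (left_ne_zero_of_mul hPP)
    obtain ⟨-, h1, h2⟩ := hψP P (right_ne_zero_of_mul hPP)
    have h3 := Pool.Agent.Y328.QG.card K _ 1 b F G h1 h2 hF hGb hI
    omega
  have hdep := fun i j k => dep (fun k => E e (s k) (t k)) hG i j k
  have htrip : ∀ i j k, i ≠ j → i ≠ k → j ≠ k →
      (dt (s i) (s j) = 0 ∧ dt (s k) (s i) = 0) ∨ (dt (t i) (t j) = 0 ∧ dt (t k) (t i) = 0) := by
    intro i j k hij hik hjk
    have hinj : ∀ a b : Fin 3, a ≠ b → (![i, j, k] : Fin 3 → K) a ≠ ![i, j, k] b := by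
      intro a b hab
      fin_cases a <;> fin_cases b <;> simp_all [eq_comm]
    have hPt : Pts (fun a => s (![i, j, k] a)) (fun a => t (![i, j, k] a)) :=
      ⟨fun a => hP.1 _, fun a => hP.2.1 _, fun a b hab => hP.2.2 _ _ (hinj a b hab)⟩
    rcases Pool.Agent.Y469.QG.trip e he _ _ hPt (hdep i j k) with h | h
    · exact Or.inl ⟨h 0 1, h 2 0⟩
    · exact Or.inr ⟨h 0 1, h 2 0⟩
  obtain ⟨i, j, hij⟩ : ∃ i j : K, i ≠ j := Fintype.exists_pair_of_one_lt_card (by omega)
  by_cases hsij : dt (s i) (s j) = 0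
  · left
    have htij : dt (t i) (t j) ≠ 0 := (hP.2.2 i j hij).resolve_left (not_not.2 hsij)
    refine half s hP.1 hsij fun k hki hkj => ?_
    rcases htrip i j k hij (Ne.symm hki) (Ne.symm hkj) with h | h
    · exact h.2
    · exact absurd h.1 htij
  · right
    obtain ⟨k₀, hk₀⟩ : ∃ k₀ : K, k₀ ≠ i ∧ k₀ ≠ j := by
      by_contra hcon
      push Not at hcon
      have h1 : (Finset.univ : Finset K) ⊆ {i, j} := by
        intro k _
        by_cases hk : k = i
        · simp [hk]
        · simp [hcon k hk]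
      have h2 := Finset.card_le_card h1
      have h3 := Finset.card_le_two (a := i) (b := j)
      rw [Finset.card_univ] at h2
      omega
    have htij : dt (t i) (t j) = 0 := by
      rcases htrip i j k₀ hij (Ne.symm hk₀.1) (Ne.symm hk₀.2) with h | h
      · exact absurd h.1 hsij
      · exact h.1
    refine half t hP.2.1 htij fun k hki hkj => ?_
    rcases htrip i j k hij (Ne.symm hki) (Ne.symm hkj) with h | h
    · exact absurd h.1 hsij
    · exact h.2

end Pool.Agent.Y397.QG
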